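import Pool.Agent.H44.DV.Targets

/-!
# Finitely many attracting periodic states
-/

set_option autoImplicit false

namespace Pool.Agent.H51.DV

open Pool.Agent.H44.DU

lemma wd_length {n : ℕ} (W : ℕ → Side n) (k : ℕ) : (wd W k).length = k := by
  simp [wd]

lemma wd_succ {n : ℕ} (W : ℕ → Side n) (k : ℕ) : wd W (k + 1) = wd W k ++ [W k] := by
  simp [wd, List.range_succ]

lemma wd_head {n : ℕ} (W : ℕ → Side n) (k : ℕ) (r : Side n) (h : r ∈ (wd W k).head?) :
    r = W 0 := by
  cases k with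
  | zero => simp [wd] at h
  | succ k =>
    rw [wd, List.range_succ_eq_map] at h
    simp at h
    exact h.symm

lemma wd_inj {n : ℕ} (V V' : ℕ → Side n) (h : ∀ k, wd V k = wd V' k) : V = V' := by
  funext i
  have h1 := h (i + 1)
  rw [wd_succ, wd_succ] at h1
  have h2 := List.append_inj_right' h1 (by simp)
  simpa using h2

/-- The special states. -/
def Sp {n : ℕ} (S : Surf n) (t : ℝ) (r : Side n) (x₁ : ℝ) : Prop :=
  ∃ (V : ℕ → Side n) (M : ℕ), 0 < M ∧ V 0 = r ∧ (∀ i, V (i + M) = V i) ∧ S.A (wd V M) < 1 ∧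
    S.g t (wd V M) x₁ = x₁ ∧ x₁ < xi t (S.P r) ∧
    ∀ (k : ℕ) (x : ℝ), x₁ ≤ x → x < xi t (S.P r) → S.Run t (wd V k) x

lemma wd_per (h2 : D_SH) {n : ℕ} (S : Surf n) (V : ℕ → Side n) (M : ℕ)
    (hV : ∀ i, V (i + M) = V i) (j : ℕ) : wd V (M + j) = wd V M ++ wd V j := by
  have h := (h2 n S 0 V M j).2.2
  rw [h]
  congr 2
  funext i
  rw [add_comm, hV]

lemma iter_per (h2 : D_SH) {n : ℕ} (S : Surf n) (t : ℝ) (V : ℕ → Side n) (M : ℕ)
    (hV : ∀ i, V (i + M) = V i) (x : ℝ) (hx : S.g t (wd V M) x = x) (k : ℕ) :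
    S.g t (wd V (M * k)) x = x ∧ S.A (wd V (M * k)) = S.A (wd V M) ^ k := by
  induction k with
  | zero => simp [wd, Surf.g_nil, Surf.A]
  | succ k ih =>
    rw [show M * (k + 1) = M + M * k by ring, wd_per h2 S V M hV, S.g_append, hx, S.A_append,
      ih.1, ih.2]
    exact ⟨rfl, by ring⟩

lemma sp_unique (h2 : D_SH) (h3 : T_FD) {n : ℕ} (S : Surf n) (t : ℝ) (r : Side n) (x₁ x₂ : ℝ)
    (hlt : x₁ < x₂) (h₁ : Sp S t r x₁) (h₂ : Sp S t r x₂) : False := by
  obtain ⟨V, M, hM, hV0, hVp, hA, hg, -, hr⟩ := h₁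
  obtain ⟨V', M', hM', hV0', hVp', hA', hg', hP', hr'⟩ := h₂
  have heq : V = V' := by
    apply wd_inj
    intro k
    have h13 := h3 n S t x₂ _ _ (hr k x₂ hlt.le hP') (hr' k x₂ le_rfl hP') (by
      intro r₁ hr₁ r₂ hr₂
      rw [wd_head _ _ _ hr₁, wd_head _ _ _ hr₂, hV0, hV0'])
    rcases h13 with h14 | h14
    · exact h14.eq_of_length (by rw [wd_length, wd_length])
    · exact (h14.eq_of_length (by rw [wd_length, wd_length])).symm
  subst heq
  have e1 := iter_per h2 S t V M hVp x₁ hg M'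
  have e2 := iter_per h2 S t V M' hVp' x₂ hg' M
  rw [mul_comm M' M] at e2
  have hpow : S.A (wd V M) ^ M' < 1 := pow_lt_one₀ (S.A_pos _).le hA hM'.ne'
  have f1 := e1.1
  have f2 := e2.1
  simp only [Surf.g] at f1 f2
  rw [e1.2] at f1 f2
  nlinarith

/-- A cyclic chain contains a special state. -/
lemma exists_special (h1 : D_RC) (h2 : D_SH) {n : ℕ} (S : Surf n) (t : ℝ) (m : ℕ) (hm : 0 < m)
    (z : ℕ → Side n × ℝ) (hz : ∀ k, S.Tr t (z k) (z (k + 1))) (hp : ∀ k, z (k + m) = z k)
    (hA : ∏ k ∈ Finset.range m, S.a (z k).1 < 1) : ∃ j < m, Sp S t (z j).1 (z j).2 := by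
  set W : ℕ → Side n := fun k => (z k).1 with hW
  have hWp : ∀ k, W (k + m) = W k := fun k => by simp only [hW, hp]
  have hrun : ∀ k j, S.Run t (wd (fun i => W (k + i)) j) (z k).2 ∧
      S.g t (wd (fun i => W (k + i)) j) (z k).2 = (z (k + j)).2 := by
    intro k j
    obtain ⟨r1, r2, -⟩ := S.chain_run hz k j
    exact ⟨r1, r2⟩
  have hrun0 : ∀ j, S.Run t (wd W j) (z 0).2 ∧ S.g t (wd W j) (z 0).2 = (z j).2 := by
    intro j
    have h := hrun 0 j
    simp only [zero_add] at h
    exact h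
  have hAm : S.A (wd W m) < 1 := by
    obtain ⟨-, -, r3⟩ := S.chain_run hz 0 m
    simp only [zero_add] at r3
    have : wd W m = (List.range m).map (fun j => (z j).1) := rfl
    rw [this, r3]
    exact hA
  set x₀ := (z 0).2 with hx₀
  have hfix : S.g t (wd W m) x₀ = x₀ := by
    rw [(hrun0 m).2]
    have := hp 0
    rw [zero_add] at this
    rw [this]
  have hbd : ∀ j, S.lc t W j < x₀ ∧ x₀ < S.rc t W j := fun j =>
    ((h1 n S t x₀ W (j + 1)).1 (hrun0 (j + 1)).1).2 j (Nat.lt_succ_self j)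
  have hWm : (fun i => W (m + i)) = W := by
    funext i; rw [add_comm, hWp]
  have hstep : ∀ j, S.rc t W j ≤ S.rc t W (m + j) := by
    intro j
    have h := (h2 n S t W m j).1
    rw [hWm] at h
    have h5 : S.g t (wd W m) (S.rc t W (m + j)) - S.g t (wd W m) x₀ =
        S.A (wd W m) * (S.rc t W (m + j) - x₀) := by
      simp only [Surf.g]; ring
    rw [← h, hfix] at h5
    have h6 := (hbd (m + j)).2
    have h7 := S.A_pos (wd W m)
    nlinarith
  obtain ⟨j₀, hj₀, hmin⟩ := Finset.exists_min_image (Finset.range m) (fun j => S.rc t W j)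
    ⟨0, Finset.mem_range.2 hm⟩
  rw [Finset.mem_range] at hj₀
  have hmin' : ∀ j, S.rc t W j₀ ≤ S.rc t W j := by
    intro j
    induction j using Nat.strong_induction_on with
    | _ j ih =>
      rcases lt_or_ge j m with h | h
      · exact hmin j (Finset.mem_range.2 h)
      · have h8 := ih (j - m) (by omega)
        have h9 := hstep (j - m)
        rw [show m + (j - m) = j by omega] at h9
        exact h8.trans h9
  refine ⟨j₀, hj₀, fun i => W (j₀ + i), m, hm, rfl, fun i => ?_, ?_, ?_, ?_, ?_⟩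
  · show W (j₀ + (i + m)) = W (j₀ + i)
    rw [← add_assoc, hWp]
  · have e1 := (h2 n S t W j₀ m).2.2
    have e2 := (h2 n S t W m j₀).2.2
    rw [hWm] at e2
    rw [add_comm j₀ m, e2] at e1
    have e3 := congrArg S.A e1
    rw [S.A_append, S.A_append] at e3
    have e4 := S.A_pos (wd W j₀)
    have e5 : S.A (wd W m) = S.A (wd (fun i => W (j₀ + i)) m) := by
      apply mul_right_cancel₀ e4.ne'
      rw [e3]; ring
    rw [← e5]; exact hAm
  · rw [(hrun j₀ m).2, hp]
  · have h := (hrun j₀ 1).1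
    have h' : wd (fun i => W (j₀ + i)) 1 = [(z j₀).1] := by simp [wd, hW]
    rw [h', S.run_single] at h
    exact h.2
  · intro k x hx1 hx2
    rw [h1]
    constructor
    · intro j hj
      have h5 := ((h1 n S t x₀ W (j₀ + k)).1 (hrun0 (j₀ + k)).1).1 (j₀ + j) (by omega)
      simpa only [add_assoc] using h5
    · intro j hj
      obtain ⟨h7, h8, -⟩ := h2 n S t W j₀ j
      constructor
      · rw [h8]
        have h9 := (S.g_lt_iff t (wd W j₀)).2 (hbd (j₀ + j)).1
        rw [(hrun0 j₀).2] at h9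
        exact h9.trans_le hx1
      · rw [h7]
        have h9 := (h2 n S t W j₀ 0).1
        have h10 : S.rc t (fun i => W (j₀ + i)) 0 = xi t (S.P (z j₀).1) := by
          have h0 : wd (fun i => W (j₀ + i)) 0 = [] := by simp [wd]
          unfold Surf.rc Surf.dev
          rw [h0]
          simp [Surf.A, Surf.B, hW]
        rw [h10] at h9
        have h11 := (S.g_le_iff t (wd W j₀)).2 (hmin' (j₀ + j))
        simp only [add_zero] at h9
        rw [← h9] at h11
        exact lt_of_lt_of_le hx2 h11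

theorem pf_FA (h1 : D_RC) (h2 : D_SH) (h3 : T_FD) : D_FA := by
  intro n S t
  set F : Set (Side n × ℝ) := {q | Sp S t q.1 q.2} with hF
  have hFfin : F.Finite := by
    apply Set.Finite.of_injOn (f := Prod.fst) (t := Set.univ) (fun _ _ => Set.mem_univ _) _
      Set.finite_univ
    rintro ⟨r, x⟩ hx ⟨r', x'⟩ hx' hrr
    simp only at hrr
    subst hrr
    have hx₁ : Sp S t r x := hx
    have hx₂ : Sp S t r x' := hx'
    rcases lt_trichotomy x x' with h | h | h
    · exact (sp_unique h2 h3 S t r x x' h hx₁ hx₂).elim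
    · rw [h]
    · exact (sp_unique h2 h3 S t r x' x h hx₂ hx₁).elim
  have hR : ∀ q ∈ F, {p | ∃ z : ℕ → Side n × ℝ, (∀ k, S.Tr t (z k) (z (k + 1))) ∧ z 0 = q ∧
      (∃ M, 0 < M ∧ ∀ k, z (k + M) = z k) ∧ ∃ j, z j = p}.Finite := by
    intro q _
    by_cases hex : ∃ z : ℕ → Side n × ℝ, (∀ k, S.Tr t (z k) (z (k + 1))) ∧ z 0 = q ∧
      ∃ M, 0 < M ∧ ∀ k, z (k + M) = z k
    · obtain ⟨z, hz, hz0, M, hM, hzM⟩ := hex
      apply ((Set.finite_lt_nat M).image z).subset
      rintro p ⟨z', hz', hz0', -, j, hj⟩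
      have hzz : ∀ k, z' k = z k := by
        intro k
        induction k with
        | zero => rw [hz0, hz0']
        | succ k ih =>
          have := hz' k
          rw [ih] at this
          exact S.tr_unique this (hz k)
      have hmod : ∀ k, z k = z (k % M) := by
        intro k
        induction k using Nat.strong_induction_on with
        | _ k ih =>
          rcases lt_or_ge k M with h | h
          · rw [Nat.mod_eq_of_lt h]
          · have h8 := ih (k - M) (by omega)
            have h9 := hzM (k - M)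
            rw [show k - M + M = k by omega] at h9
            rw [h9, h8, Nat.mod_eq_sub_mod h]
      exact ⟨j % M, Nat.mod_lt _ hM, by rw [← hmod, ← hzz, hj]⟩
    · convert Set.finite_empty
      ext p
      simp only [Set.mem_ofPred_eq, Set.mem_empty_iff_false, iff_false]
      rintro ⟨z, hz, hz0, hM, -⟩
      exact hex ⟨z, hz, hz0, hM⟩
  apply (hFfin.biUnion hR).subset
  rintro p ⟨m, y, hy, hy0, hA⟩
  obtain ⟨c1, c2⟩ := S.cyc_chain hy
  have hm : 0 < m := hy.1
  obtain ⟨j, hj, hsp⟩ := exists_special h1 h2 S t m hm (fun k => y (k % m)) c1 c2 (by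
    refine lt_of_eq_of_lt (Finset.prod_congr rfl fun k hk => ?_) hA
    rw [Nat.mod_eq_of_lt (Finset.mem_range.1 hk)])
  simp only [Set.mem_iUnion]
  refine ⟨y (j % m), hsp, fun k => y ((j + k) % m), fun k => ?_, by simp, ⟨m, hm, fun k => ?_⟩,
    m - j, ?_⟩
  · exact c1 (j + k)
  · show y ((j + (k + m)) % m) = y ((j + k) % m)
    rw [← add_assoc]; exact c2 (j + k)
  · simp only
    rw [show j + (m - j) = m by omega, Nat.mod_self, hy0]

end Pool.Agent.H51.DV
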